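import Pool.Agent.U570.AC.Fin
import Pool.Agent.U570.AC.Sp2

set_option autoImplicit false

open Matrix Quaternion Pool.Agent.U570.AC

namespace Pool.Agent.Results.MP_e311cd_gt.AlmostConjugatePairs

/-- (1) For `n ≥ 3` every quotient of the compact symplectic group `Sp(n)` by a central subgroup
contains two finite subgroups which are almost conjugate and not conjugate; this includes `Sp(3)`.
(2) The same for every quotient of `SU(n)` by a central subgroup, for `n ≥ 6`.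
(3) The same for every quotient of `SO(n)` by a central subgroup, for `n ≥ 6`. -/
theorem result :
    (∀ n : ℕ, 3 ≤ n → ∀ (Z : Subgroup (unitary (Matrix (Fin n) (Fin n) ℍ[ℝ]))) [Z.Normal],
      Z ≤ Subgroup.center (unitary (Matrix (Fin n) (Fin n) ℍ[ℝ])) →
      HasPair (unitary (Matrix (Fin n) (Fin n) ℍ[ℝ]) ⧸ Z)) ∧
    (∀ n : ℕ, 6 ≤ n → ∀ (Z : Subgroup (specialUnitaryGroup (Fin n) ℂ)) [Z.Normal],
      Z ≤ Subgroup.center (specialUnitaryGroup (Fin n) ℂ) →
      HasPair (specialUnitaryGroup (Fin n) ℂ ⧸ Z)) ∧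
    (∀ n : ℕ, 6 ≤ n → ∀ (Z : Subgroup (specialOrthogonalGroup (Fin n) ℝ)) [Z.Normal],
      Z ≤ Subgroup.center (specialOrthogonalGroup (Fin n) ℝ) →
      HasPair (specialOrthogonalGroup (Fin n) ℝ ⧸ Z)) := by
  refine ⟨fun n hn Z _ hZ => ?_, fun n hn Z _ hZ => ?_, fun n hn Z _ hZ => ?_⟩
  · obtain ⟨m, rfl⟩ := Nat.exists_eq_add_of_le' hn
    exact spAll Z hZ
  · obtain ⟨m, rfl⟩ := Nat.exists_eq_add_of_le' hn
    exact su Z hZ
  · obtain ⟨m, rfl⟩ := Nat.exists_eq_add_of_le' hn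
    exact so Z hZ

end Pool.Agent.Results.MP_e311cd_gt.AlmostConjugatePairs
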