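import Pool.Agent.U570.AC.GT3

set_option autoImplicit false

namespace Pool.Agent.Results.MP_e311cd_gt.GTwo

open Pool.Agent.U570.AC

/-- The compact group `G_2`, the group of linear automorphisms of the real octonion algebra, contains
two finite subgroups which are almost conjugate and not conjugate. -/
theorem result : HasPair GT.G2 := GT.g2pair

end Pool.Agent.Results.MP_e311cd_gt.GTwo
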